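import Pool.Agent.Helper800_Enc.Core

/-! K_4^3-free 3-graphs encoded by a graph: the rules. -/

set_option autoImplicit false
open Finset
open scoped Classical

namespace Pool.Agent.Helper800Enc

open Pool.Agent.R79.EG

variable {n : ℕ}

theorem ia01 (G : SimpleGraph (Fin n)) (x y : Fin n) : ia G x y = 0 ∨ ia G x y = 1 := by
  unfold ia; split_ifs <;> simp

theorem ia_adj {G : SimpleGraph (Fin n)} {x y : Fin n} (h : G.Adj x y) : ia G x y = 1 := by
  unfold ia; rw [if_pos h]

theorem ia_nadj {G : SimpleGraph (Fin n)} {x y : Fin n} (h : ¬ G.Adj x y) : ia G x y = 0 := by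
  unfold ia; rw [if_neg h]

/-- rules for which three triples of a quadruple force the fourth -/
theorem good_coherent (G : SimpleGraph (Fin n)) (R : Finset ℕ)
    (hc : ∀ p ∈ range 2, ∀ q ∈ range 2, ∀ r ∈ range 2, ∀ x ∈ range 2, ∀ y ∈ range 2,
      ∀ z ∈ range 2, p + q + x ∈ R → p + r + y ∈ R → q + r + z ∈ R → x + y + z ∈ R)
    (U : Finset (Fin n)) (hU : U.Nonempty) (hf : FreeOn (encoded G R) U) :
    Good (encoded G R) U := by
  obtain ⟨v, hv⟩ := hU
  refine good_of_link _ U v hv ?_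
  intro a ha b hb c hc' hva hvb hvc hab hac hbc h1 h2 h3
  refine hf v hv a ha b hb c hc' hva hvb hvc hab hac hbc h1 h2 h3 ?_
  rw [mem_encoded G R hab hac hbc]
  rw [mem_encoded G R hva hvb hab] at h1
  rw [mem_encoded G R hva hvc hac] at h2
  rw [mem_encoded G R hvb hvc hbc] at h3
  have hr : ∀ x y, ia G x y ∈ range 2 := by
    intro x y
    rw [mem_range]
    rcases ia01 G x y with h | h <;> omega
  exact hc _ (hr v a) _ (hr v b) _ (hr v c) _ (hr a b) _ (hr a c) _ (hr b c) h1 h2 h3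

/-- neighbours in `U` -/
noncomputable def Nb (G : SimpleGraph (Fin n)) (U : Finset (Fin n)) (v : Fin n) :
    Finset (Fin n) := U.filter (G.Adj v)

noncomputable def Wb (G : SimpleGraph (Fin n)) (U : Finset (Fin n)) (v : Fin n) :
    Finset (Fin n) := (U.erase v).filter (fun x => ¬ G.Adj v x)

theorem mem_Nb {G : SimpleGraph (Fin n)} {U : Finset (Fin n)} {v x : Fin n} :
    x ∈ Nb G U v ↔ x ∈ U ∧ G.Adj v x := by
  unfold Nb; rw [mem_filter]

theorem mem_Wb {G : SimpleGraph (Fin n)} {U : Finset (Fin n)} {v x : Fin n} :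
    x ∈ Wb G U v ↔ x ∈ U ∧ x ≠ v ∧ ¬ G.Adj v x := by
  unfold Wb; rw [mem_filter, mem_erase]; tauto

theorem Nb_Wb (G : SimpleGraph (Fin n)) {U : Finset (Fin n)} {v : Fin n} (hv : v ∈ U) :
    (Nb G U v).card + (Wb G U v).card = U.card - 1 := by
  rw [← card_erase_of_mem hv, ← card_filter_add_card_filter_not (s := U.erase v) (G.Adj v)]
  unfold Wb
  congr 2
  ext x
  rw [mem_Nb, mem_filter, mem_erase]
  constructor
  · exact fun h => ⟨⟨h.2.ne', h.1⟩, h.2⟩
  · exact fun h => ⟨h.1.2, h.2⟩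

/-- degree of `s` inside `U` split at `v` -/
theorem deg_split (G : SimpleGraph (Fin n)) {U : Finset (Fin n)} {v s : Fin n} :
    (Nb G U s).card ≤ 1 + ((Nb G U v).filter (G.Adj s)).card + ((Wb G U v).filter (G.Adj s)).card := by
  have : Nb G U s ⊆ ({v} ∪ (Nb G U v).filter (G.Adj s)) ∪ (Wb G U v).filter (G.Adj s) := by
    intro x hx
    rw [mem_Nb] at hx
    rw [mem_union, mem_union, mem_singleton, mem_filter, mem_filter, mem_Nb, mem_Wb]
    by_cases h1 : x = v
    · exact Or.inl (Or.inl h1)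
    · by_cases h2 : G.Adj v x
      · exact Or.inl (Or.inr ⟨⟨hx.1, h2⟩, hx.2⟩)
      · exact Or.inr ⟨⟨hx.1, h1, h2⟩, hx.2⟩
  refine (card_le_card this).trans ((card_union_le _ _).trans ?_)
  have := card_union_le ({v} : Finset (Fin n)) ((Nb G U v).filter (G.Adj s))
  rw [card_singleton] at this
  omega

theorem exists_min (G : SimpleGraph (Fin n)) {U : Finset (Fin n)} (hU : U.Nonempty) :
    ∃ v ∈ U, ∀ x ∈ U, (Nb G U v).card ≤ (Nb G U x).card := exists_min_image U _ hU

/-- crude bound for rules without 0 and 1: pairs of the link are inside `N`, or adjacent across. -/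
theorem D_le2 (G : SimpleGraph (Fin n)) (R : Finset ℕ) (h0 : 0 ∉ R) (h1 : 1 ∉ R)
    {U : Finset (Fin n)} {v : Fin n} (Q : Fin n → Fin n → Prop)
    (hQ : ∀ a b, G.Adj v a → G.Adj v b → a ≠ b → 2 + ia G a b ∈ R → Q a b) :
    D (encoded G R) U v ≤ ((Nb G U v ×ˢ Nb G U v).filter (fun p => Q p.1 p.2)).card
      + 2 * ∑ s ∈ Nb G U v, ((Wb G U v).filter (G.Adj s)).card := by
  have e1 : ((Nb G U v ×ˢ Wb G U v).filter (fun p => G.Adj p.1 p.2)).card =
      ∑ s ∈ Nb G U v, ((Wb G U v).filter (G.Adj s)).card :=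
    card_filter_prod _ _ (fun a b => G.Adj a b)
  have e2 : ((Wb G U v ×ˢ Nb G U v).filter (fun p => G.Adj p.2 p.1)).card =
      ∑ s ∈ Nb G U v, ((Wb G U v).filter (G.Adj s)).card :=
    card_filter_prod' _ _ (fun a b => G.Adj b a)
  have hsub : ((U.erase v) ×ˢ (U.erase v)).filter
      (fun p => p.1 ≠ p.2 ∧ ({v, p.1, p.2} : Finset (Fin n)) ∈ encoded G R) ⊆
      (((Nb G U v ×ˢ Nb G U v).filter (fun p => Q p.1 p.2)) ∪
      ((Nb G U v ×ˢ Wb G U v).filter (fun p => G.Adj p.1 p.2))) ∪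
      ((Wb G U v ×ˢ Nb G U v).filter (fun p => G.Adj p.2 p.1)) := by
    rintro ⟨a, b⟩ hp
    rw [mem_filter, mem_product, mem_erase, mem_erase] at hp
    obtain ⟨⟨⟨hav, ha⟩, ⟨hbv, hb⟩⟩, hab, hm⟩ := hp
    simp only at hav ha hbv hb hab hm
    rw [mem_encoded G R hav.symm hbv.symm hab] at hm
    simp only [mem_union, mem_filter, mem_product, mem_Nb, mem_Wb]
    by_cases p1 : G.Adj v a
    · by_cases p2 : G.Adj v b
      · left; left
        rw [ia_adj p1, ia_adj p2] at hm
        exact ⟨⟨⟨ha, p1⟩, ⟨hb, p2⟩⟩, hQ a b p1 p2 hab hm⟩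
      · by_cases p3 : G.Adj a b
        · left; right; exact ⟨⟨⟨ha, p1⟩, ⟨hb, hbv, p2⟩⟩, p3⟩
        · rw [ia_adj p1, ia_nadj p2, ia_nadj p3] at hm
          exact absurd hm h1
    · by_cases p2 : G.Adj v b
      · by_cases p3 : G.Adj a b
        · right; exact ⟨⟨⟨ha, hav, p1⟩, ⟨hb, p2⟩⟩, p3.symm⟩
        · rw [ia_nadj p1, ia_adj p2, ia_nadj p3] at hm
          exact absurd hm h1
      · exfalso
        rw [ia_nadj p1, ia_nadj p2] at hm
        rcases ia01 G a b with h | h <;> rw [h] at hm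
        · exact h0 hm
        · exact h1 hm
  have := (card_le_card hsub).trans ((card_union_le _ _).trans
    (Nat.add_le_add_right (card_union_le _ _) _))
  unfold D
  omega

/-- rule {2} -/
theorem good_2 (G : SimpleGraph (Fin n)) (R : Finset ℕ) (h0 : 0 ∉ R) (h1 : 1 ∉ R) (h2 : 2 ∈ R)
    (h3 : 3 ∉ R) (U : Finset (Fin n)) (hU : U.Nonempty) (hf : FreeOn (encoded G R) U) :
    Good (encoded G R) U := by
  obtain ⟨v, hv, hmin⟩ := exists_min G hU
  refine ⟨v, hv, ?_⟩
  have hD := D_le2 G R h0 h1 (U := U) (v := v) (fun a b => a ≠ b ∧ ¬ G.Adj a b)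
    (fun a b _ _ hab hm => ⟨hab, fun h => by rw [ia_adj h] at hm; exact h3 hm⟩)
  set N := Nb G U v with hN
  set W := Wb G U v with hW
  set h : Fin n → ℕ := fun s => (N.filter (fun t => s ≠ t ∧ ¬ G.Adj s t)).card with hh
  set b : Fin n → ℕ := fun s => (W.filter (G.Adj s)).card with hb
  have hbw : ∀ s, b s ≤ W.card := fun s => card_filter_le _ _
  -- h t ≤ b t
  have hhb : ∀ t ∈ N, h t ≤ b t := by
    intro t ht
    rw [hN, mem_Nb] at ht
    have k1 := hmin t ht.1
    have k2 := deg_split G (U := U) (v := v) (s := t)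
    have k3 : (N.filter (G.Adj t)).card + h t + 1 ≤ N.card := by
      have e : (N.filter (G.Adj t)).card + h t + ({t} : Finset (Fin n)).card ≤ N.card := by
        have hd1 : Disjoint (N.filter (G.Adj t)) (N.filter (fun x => t ≠ x ∧ ¬ G.Adj t x)) := by
          rw [disjoint_left]
          intro x hx hx'
          rw [mem_filter] at hx hx'
          exact hx'.2.2 hx.2
        have hd2 : Disjoint (N.filter (G.Adj t) ∪ N.filter (fun x => t ≠ x ∧ ¬ G.Adj t x))
            ({t} : Finset (Fin n)) := by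
          rw [disjoint_singleton_right, mem_union, mem_filter, mem_filter]
          rintro (hx | hx)
          · exact G.loopless.irrefl _ hx.2
          · exact hx.2.1 rfl
        rw [hh]
        simp only
        rw [← card_union_of_disjoint hd1, ← card_union_of_disjoint hd2]
        refine card_le_card ?_
        intro x hx
        rw [mem_union, mem_union, mem_filter, mem_filter, mem_singleton] at hx
        rcases hx with (hx | hx) | rfl
        · exact hx.1
        · exact hx.1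
        · rw [hN, mem_Nb]; exact ht
      rwa [card_singleton] at e
    have k4 : (Nb G U t).card ≤ 1 + (N.filter (G.Adj t)).card + b t := k2
    omega
  -- b s + b t ≤ w
  have hdis : ∀ s ∈ N, ∀ t ∈ N, s ≠ t → ¬ G.Adj s t → b s + b t ≤ W.card := by
    intro s hs t ht hst hnadj
    rw [hN, mem_Nb] at hs ht
    have hd : Disjoint (W.filter (G.Adj s)) (W.filter (G.Adj t)) := by
      rw [disjoint_left]
      intro x hx hx'
      rw [mem_filter, hW, mem_Wb] at hx hx'
      have hvs := hs.2.ne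
      have hvt := ht.2.ne
      have hvx := hx.1.2.1.symm
      have hsx := hx.2.ne
      have htx := hx'.2.ne
      refine hf v hv s hs.1 t ht.1 x hx.1.1 hvs hvt hvx hst hsx htx ?_ ?_ ?_ ?_
      · rw [mem_encoded G R hvs hvt hst, ia_adj hs.2, ia_adj ht.2, ia_nadj hnadj]; exact h2
      · rw [mem_encoded G R hvs hvx hsx, ia_adj hs.2, ia_nadj hx.1.2.2, ia_adj hx.2]; exact h2
      · rw [mem_encoded G R hvt hvx htx, ia_adj ht.2, ia_nadj hx.1.2.2, ia_adj hx'.2]; exact h2
      · rw [mem_encoded G R hst hsx htx, ia_nadj hnadj, ia_adj hx.2, ia_adj hx'.2]; exact h2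
    rw [hb]
    simp only
    rw [← card_union_of_disjoint hd]
    exact card_le_card (union_subset (filter_subset _ _) (filter_subset _ _))
  have hone : ∀ s ∈ N, (N.filter (fun t => (s ≠ t ∧ ¬ G.Adj s t) ∧ h s ≤ h t)).card ≤
      W.card - b s := by
    intro s hs
    rcases (N.filter (fun t => (s ≠ t ∧ ¬ G.Adj s t) ∧ h s ≤ h t)).eq_empty_or_nonempty with he | he
    · rw [he, card_empty]; exact Nat.zero_le _
    · obtain ⟨t, ht⟩ := he
      rw [mem_filter] at ht
      have k1 := hdis s hs t ht.1 ht.2.1.1 ht.2.1.2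
      have k2 := hhb t ht.1
      have k3 : (N.filter (fun t => (s ≠ t ∧ ¬ G.Adj s t) ∧ h s ≤ h t)).card ≤ h s := by
        refine card_le_card ?_
        intro x hx
        rw [mem_filter] at hx ⊢
        exact ⟨hx.1, hx.2.1⟩
      have k4 := ht.2.2
      omega
  have hQ : ((N ×ˢ N).filter (fun p => p.1 ≠ p.2 ∧ ¬ G.Adj p.1 p.2)).card ≤
      2 * ∑ s ∈ N, (W.card - b s) := by
    have hsub : (N ×ˢ N).filter (fun p => p.1 ≠ p.2 ∧ ¬ G.Adj p.1 p.2) ⊆
        (N ×ˢ N).filter (fun p => (p.1 ≠ p.2 ∧ ¬ G.Adj p.1 p.2) ∧ h p.1 ≤ h p.2) ∪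
        (N ×ˢ N).filter (fun p => (p.2 ≠ p.1 ∧ ¬ G.Adj p.2 p.1) ∧ h p.2 ≤ h p.1) := by
      intro p hp
      rw [mem_filter] at hp
      rw [mem_union, mem_filter, mem_filter]
      rcases le_total (h p.1) (h p.2) with hle | hle
      · exact Or.inl ⟨hp.1, hp.2, hle⟩
      · exact Or.inr ⟨hp.1, ⟨hp.2.1.symm, fun hh => hp.2.2 hh.symm⟩, hle⟩
    have c1 : ((N ×ˢ N).filter (fun p => (p.1 ≠ p.2 ∧ ¬ G.Adj p.1 p.2) ∧ h p.1 ≤ h p.2)).card ≤
        ∑ s ∈ N, (W.card - b s) := by
      rw [card_filter_prod N N (fun x y => (x ≠ y ∧ ¬ G.Adj x y) ∧ h x ≤ h y)]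
      exact sum_le_sum hone
    have c2 : ((N ×ˢ N).filter (fun p => (p.2 ≠ p.1 ∧ ¬ G.Adj p.2 p.1) ∧ h p.2 ≤ h p.1)).card ≤
        ∑ s ∈ N, (W.card - b s) := by
      rw [card_filter_prod' N N (fun x y => (y ≠ x ∧ ¬ G.Adj y x) ∧ h y ≤ h x)]
      exact sum_le_sum hone
    have := (card_le_card hsub).trans (card_union_le _ _)
    omega
  have hsum : ∑ s ∈ N, (W.card - b s) + ∑ s ∈ N, b s = N.card * W.card := by
    rw [← sum_add_distrib]
    rw [sum_congr rfl (fun s _ => Nat.sub_add_cancel (hbw s)), sum_const, smul_eq_mul]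
  have hcard := Nb_Wb G hv
  rw [← hN, ← hW] at hcard
  rw [← hcard]
  have hfin : 4 * (N.card * W.card) ≤ (N.card + W.card) ^ 2 := by
    nlinarith [four_mul_le_sq_add N.card W.card]
  have hD' : D (encoded G R) U v ≤ 2 * (N.card * W.card) := by
    have hD2 : D (encoded G R) U v ≤ 2 * ∑ s ∈ N, (W.card - b s) + 2 * ∑ s ∈ N, b s :=
      hD.trans (Nat.add_le_add_right (by convert hQ) _)
    omega
  omega

end Pool.Agent.Helper800Enc
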