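import Pool.Agent.Helper800_Enc.Cases

/-! K_4^3-free 3-graphs encoded by a graph: the other rules. -/

set_option autoImplicit false
open Finset
open scoped Classical

namespace Pool.Agent.Helper800Enc

open Pool.Agent.R79.EG

variable {n : ℕ}

theorem arith23 (d w x D : ℕ) (h1 : D ≤ (d * d - d) + 2 * x) (h2 : x ≤ w) (h3 : d * (d - 2) ≤ x)
    (h0 : d = 0 → x = 0) : 2 * D ≤ (d + w) ^ 2 := by
  rcases Nat.lt_or_ge d 2 with hd | hd
  · interval_cases d
    · rw [h0 rfl] at h1
      simp at h1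
      rw [h1]
      exact Nat.zero_le _
    · have h5 := four_mul_le_sq_add 1 w
      simp at h1
      omega
  · obtain ⟨e, rfl⟩ := Nat.exists_eq_add_of_le hd
    have e1 : 2 + e - 2 = e := by omega
    rw [e1] at h3
    have e2 : (2 + e) * (2 + e) - (2 + e) = (2 + e) * (1 + e) := by
      have : (2 + e) * (2 + e) = (2 + e) * (1 + e) + (2 + e) := by ring
      omega
    rw [e2] at h1
    have h4 : (2 + e) * e ≤ w := h3.trans h2
    have h5 : e * ((2 + e) * e) ≤ e * w := Nat.mul_le_mul_left _ h4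
    nlinarith [h1, h2, h4, h5, Nat.zero_le e, Nat.zero_le w, Nat.zero_le (e * e), Nat.zero_le (e * e * e), Nat.zero_le (w * w)]

/-- rule {2,3} -/
theorem good_23 (G : SimpleGraph (Fin n)) (R : Finset ℕ) (h0 : 0 ∉ R) (h1 : 1 ∉ R) (h2 : 2 ∈ R)
    (h3 : 3 ∈ R) (U : Finset (Fin n)) (hU : U.Nonempty) (hf : FreeOn (encoded G R) U) :
    Good (encoded G R) U := by
  obtain ⟨v, hv, hmin⟩ := exists_min G hU
  refine ⟨v, hv, ?_⟩
  have hD := D_le2 G R h0 h1 (U := U) (v := v) (fun a b => a ≠ b)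
    (fun a b _ _ hab _ => hab)
  set N := Nb G U v with hN
  set W := Wb G U v with hW
  have hr : ∀ x y, 2 + ia G x y ∈ R := by
    intro x y
    rcases ia01 G x y with h | h <;> rw [h]
    · exact h2
    · exact h3
  -- four-cycle v p s q
  have hcyc : ∀ p q s : Fin n, p ∈ U → q ∈ U → s ∈ U → p ≠ q → s ≠ v → G.Adj v p → G.Adj v q →
      G.Adj s p → G.Adj s q → False := by
    intro p q s hp hq hs hpq hsv a1 a2 a3 a4
    refine hf v hv p hp q hq s hs a1.ne a2.ne hsv.symm hpq a3.ne' a4.ne' ?_ ?_ ?_ ?_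
    · rw [mem_encoded G R a1.ne a2.ne hpq, ia_adj a1, ia_adj a2]; exact hr _ _
    · rw [mem_encoded G R a1.ne hsv.symm a3.ne', ia_adj a1, ia_comm G p s, ia_adj a3]
      have := hr v s
      rwa [show 1 + ia G v s + 1 = 2 + ia G v s by omega]
    · rw [mem_encoded G R a2.ne hsv.symm a4.ne', ia_adj a2, ia_comm G q s, ia_adj a4]
      have := hr v s
      rwa [show 1 + ia G v s + 1 = 2 + ia G v s by omega]
    · rw [mem_encoded G R hpq a3.ne' a4.ne', ia_comm G p s, ia_adj a3, ia_comm G q s, ia_adj a4]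
      have := hr p q
      rwa [show ia G p q + 1 + 1 = 2 + ia G p q by omega]
  have hx : ∑ s ∈ N, (W.filter (G.Adj s)).card ≤ W.card := by
    rw [← card_filter_prod N W (fun a b => G.Adj a b), card_filter_prod' N W (fun a b => G.Adj a b)]
    refine (sum_le_card_nsmul _ _ 1 (fun b hb => ?_)).trans_eq (by rw [smul_eq_mul, mul_one])
    rw [hW, mem_Wb] at hb
    rw [card_le_one]
    intro p hp q hq
    rw [mem_filter, hN, mem_Nb] at hp hq
    by_contra hpq
    exact hcyc p q b hp.1.1 hq.1.1 hb.1 hpq hb.2.1 hp.1.2 hq.1.2 hp.2.symm hq.2.symm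
  have hb : ∀ s ∈ N, N.card - 2 ≤ (W.filter (G.Adj s)).card := by
    intro s hs
    rw [hN, mem_Nb] at hs
    have k1 := hmin s hs.1
    have k2 : (Nb G U s).card ≤ 1 + (N.filter (G.Adj s)).card + (W.filter (G.Adj s)).card :=
      deg_split G (U := U) (v := v) (s := s)
    have k3 : (N.filter (G.Adj s)).card ≤ 1 := by
      rw [card_le_one]
      intro p hp q hq
      rw [mem_filter, hN, mem_Nb] at hp hq
      by_contra hpq
      exact hcyc p q s hp.1.1 hq.1.1 hs.1 hpq hs.2.ne' hp.1.2 hq.1.2 hp.2 hq.2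
    omega
  have hx2 : N.card * (N.card - 2) ≤ ∑ s ∈ N, (W.filter (G.Adj s)).card := by
    have := card_nsmul_le_sum N (fun s => (W.filter (G.Adj s)).card) (N.card - 2) hb
    rwa [smul_eq_mul] at this
  have hN2 : ((N ×ˢ N).filter (fun p => p.1 ≠ p.2)).card = N.card * N.card - N.card := by
    rw [← offDiag_card]
    congr 1
    ext p
    rw [mem_filter, mem_product, mem_offDiag]
    tauto
  have hcard := Nb_Wb G hv
  rw [← hN, ← hW] at hcard
  rw [← hcard]
  refine arith23 _ _ _ _ ?_ hx hx2 (fun h => by rw [card_eq_zero.mp h, sum_empty])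
  rw [← hN2]
  refine hD.trans (Nat.add_le_add_right (le_of_eq ?_) _)
  congr

theorem alt4 (G : SimpleGraph (Fin n)) (R : Finset ℕ) (h1 : 1 ∈ R) (h2 : 2 ∈ R)
    {U : Finset (Fin n)} (hf : FreeOn (encoded G R) U) {a b c d : Fin n} (ha : a ∈ U)
    (hb : b ∈ U) (hc : c ∈ U) (hd : d ∈ U) (hac : a ≠ c) (hbd : b ≠ d) (hbc : b ≠ c) (hda : d ≠ a)
    (e1 : G.Adj a b) (e2 : ¬ G.Adj b c) (e3 : G.Adj c d) (e4 : ¬ G.Adj d a) : False := by
  have hr : ∀ x y, 1 + ia G x y ∈ R := by
    intro x y
    rcases ia01 G x y with h | h <;> rw [h]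
    · exact h1
    · exact h2
  refine hf a ha b hb c hc d hd e1.ne hac hda.symm hbc hbd e3.ne ?_ ?_ ?_ ?_
  · rw [mem_encoded G R e1.ne hac hbc, ia_adj e1, ia_nadj e2, add_zero]; exact hr _ _
  · rw [mem_encoded G R e1.ne hda.symm hbd, ia_adj e1, ia_comm G a d, ia_nadj e4, add_zero]
    exact hr _ _
  · rw [mem_encoded G R hac hda.symm e3.ne, ia_adj e3, ia_comm G a d, ia_nadj e4, add_zero,
      add_comm]
    exact hr _ _
  · rw [mem_encoded G R hbc hbd e3.ne, ia_adj e3, ia_nadj e2, zero_add, add_comm]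
    exact hr _ _

theorem iso_dom (G : SimpleGraph (Fin n)) (R : Finset ℕ) (h1 : 1 ∈ R) (h2 : 2 ∈ R)
    {U : Finset (Fin n)} (hU : U.Nonempty) (hf : FreeOn (encoded G R) U) :
    ∃ u ∈ U, (∀ x ∈ U, x ≠ u → ¬ G.Adj u x) ∨ (∀ x ∈ U, x ≠ u → G.Adj u x) := by
  obtain ⟨v, hv, hmin⟩ := exists_min G hU
  rcases (Nb G U v).eq_empty_or_nonempty with he | ⟨a, ha⟩
  · refine ⟨v, hv, Or.inl (fun x hx _ h => ?_)⟩
    have : x ∈ Nb G U v := mem_Nb.mpr ⟨hx, h⟩
    rw [he] at this
    exact notMem_empty _ this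
  · rw [mem_Nb] at ha
    refine ⟨a, ha.1, Or.inr (fun b hb hba => ?_)⟩
    by_contra hab
    have hvb : v ≠ b := fun h => hab (h ▸ ha.2.symm)
    have hex : ∃ c ∈ Nb G U b, c ∉ Nb G U v ∧ c ≠ v := by
      by_contra hno
      push Not at hno
      have hk := hmin b hb
      have haN : a ∈ Nb G U v := mem_Nb.mpr ha
      by_cases hvb' : G.Adj v b
      · have hbN : b ∈ (Nb G U v).erase a := mem_erase.mpr ⟨hba, mem_Nb.mpr ⟨hb, hvb'⟩⟩
        have hsub : Nb G U b ⊆ insert v (((Nb G U v).erase a).erase b) := by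
          intro c hc
          by_cases hcv : c = v
          · rw [hcv]; exact mem_insert_self _ _
          · have hc1 : c ∈ Nb G U v := by
              by_contra h
              exact hcv (hno c hc h)
            rw [mem_Nb] at hc
            refine mem_insert_of_mem (mem_erase.mpr ⟨hc.2.ne', mem_erase.mpr ⟨?_, hc1⟩⟩)
            rintro rfl
            exact hab hc.2.symm
        have := (card_le_card hsub).trans (card_insert_le _ _)
        rw [card_erase_of_mem hbN, card_erase_of_mem haN] at this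
        have h5 : 0 < ((Nb G U v).erase a).card := card_pos.mpr ⟨b, hbN⟩
        rw [card_erase_of_mem haN] at h5
        omega
      · have hsub : Nb G U b ⊆ (Nb G U v).erase a := by
          intro c hc
          have hcv : c ≠ v := by
            rintro rfl
            rw [mem_Nb] at hc
            exact hvb' hc.2.symm
          have hc1 : c ∈ Nb G U v := by
            by_contra h
            exact hcv (hno c hc h)
          rw [mem_Nb] at hc
          refine mem_erase.mpr ⟨?_, hc1⟩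
          rintro rfl
          exact hab hc.2.symm
        have := card_le_card hsub
        rw [card_erase_of_mem haN] at this
        have h5 : 0 < (Nb G U v).card := card_pos.mpr ⟨a, haN⟩
        omega
    obtain ⟨c, hc1, hc2, hc3⟩ := hex
    rw [mem_Nb] at hc1
    have hcv : ¬ G.Adj c v := fun h => hc2 (mem_Nb.mpr ⟨hc1.1, h.symm⟩)
    have hac : a ≠ c := by
      rintro rfl
      exact hcv ha.2.symm
    exact alt4 G R h1 h2 hf hv ha.1 hb hc1.1 hvb hac hba.symm hc3 ha.2 hab hc1.2 hcv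

theorem FreeOn.mono {H : Finset (Finset (Fin n))} {U V : Finset (Fin n)} (h : FreeOn H V)
    (hUV : U ⊆ V) : FreeOn H U :=
  fun a ha b hb c hc d hd => h a (hUV ha) b (hUV hb) c (hUV hc) d (hUV hd)

theorem split_vertex (G : SimpleGraph (Fin n)) (R : Finset ℕ) (h1 : 1 ∈ R) (h2 : 2 ∈ R) :
    ∀ k : ℕ, ∀ U : Finset (Fin n), U.card = k + 1 → FreeOn (encoded G R) U →
      ∃ v ∈ U, (∀ a ∈ U, ∀ b ∈ U, G.Adj v a → G.Adj v b → a ≠ b → G.Adj a b) ∧
        (∀ a ∈ U, ∀ b ∈ U, a ≠ v → b ≠ v → ¬ G.Adj v a → ¬ G.Adj v b → ¬ G.Adj a b) := by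
  intro k
  induction k with
  | zero =>
    intro U hU _
    obtain ⟨v, rfl⟩ := card_eq_one.mp hU
    refine ⟨v, mem_singleton_self v, ?_, ?_⟩
    · intro a ha b _ hva
      rw [mem_singleton] at ha
      rw [ha] at hva
      exact absurd hva (G.loopless.irrefl _)
    · intro a ha b _ hav
      rw [mem_singleton] at ha
      exact absurd ha hav
  | succ k ih =>
    intro U hU hf
    obtain ⟨u, hu, hh⟩ := iso_dom G R h1 h2 (card_pos.mp (by omega)) hf
    obtain ⟨v, hv, hcl, hin⟩ := ih (U.erase u) (by rw [card_erase_of_mem hu]; omega)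
      (hf.mono (erase_subset _ _))
    rw [mem_erase] at hv
    refine ⟨v, hv.2, ?_, ?_⟩
    · intro a ha b hb hva hvb hab
      rcases hh with hh | hh
      · have hau : a ≠ u := by
          rintro rfl
          exact hh v hv.2 hv.1 hva.symm
        have hbu : b ≠ u := by
          rintro rfl
          exact hh v hv.2 hv.1 hvb.symm
        exact hcl a (mem_erase.mpr ⟨hau, ha⟩) b (mem_erase.mpr ⟨hbu, hb⟩) hva hvb hab
      · by_cases hau : a = u
        · subst hau
          exact hh b hb hab.symm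
        · by_cases hbu : b = u
          · subst hbu
            exact (hh a ha hab).symm
          · exact hcl a (mem_erase.mpr ⟨hau, ha⟩) b (mem_erase.mpr ⟨hbu, hb⟩) hva hvb hab
    · intro a ha b hb hav hbv hva hvb hab
      rcases hh with hh | hh
      · by_cases hau : a = u
        · subst hau
          exact hh b hb hab.ne' hab
        · by_cases hbu : b = u
          · subst hbu
            exact hh a ha hab.ne hab.symm
          · exact hin a (mem_erase.mpr ⟨hau, ha⟩) b (mem_erase.mpr ⟨hbu, hb⟩) hav hbv hva hvb hab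
      · have hau : a ≠ u := by
          rintro rfl
          exact hva (hh v hv.2 hv.1).symm
        have hbu : b ≠ u := by
          rintro rfl
          exact hvb (hh v hv.2 hv.1).symm
        exact hin a (mem_erase.mpr ⟨hau, ha⟩) b (mem_erase.mpr ⟨hbu, hb⟩) hav hbv hva hvb hab

/-- rule {1,2} -/
theorem good_12 (G : SimpleGraph (Fin n)) (R : Finset ℕ) (h0 : 0 ∉ R) (h1 : 1 ∈ R) (h2 : 2 ∈ R)
    (h3 : 3 ∉ R) (U : Finset (Fin n)) (hU : U.Nonempty) (hf : FreeOn (encoded G R) U) :
    Good (encoded G R) U := by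
  have hc : 0 < U.card := card_pos.mpr hU
  obtain ⟨v, hv, hcl, hin⟩ := split_vertex G R h1 h2 (U.card - 1) U (by omega) hf
  refine good_of_link _ U v hv ?_
  have key : ∀ a ∈ U, ∀ b ∈ U, v ≠ a → v ≠ b → a ≠ b →
      ({v, a, b} : Finset (Fin n)) ∈ encoded G R → (G.Adj v a ↔ ¬ G.Adj v b) := by
    intro a ha b hb hva hvb hab hm
    rw [mem_encoded G R hva hvb hab] at hm
    by_cases p1 : G.Adj v a <;> by_cases p2 : G.Adj v b
    · rw [ia_adj p1, ia_adj p2, ia_adj (hcl a ha b hb p1 p2 hab)] at hm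
      exact absurd hm h3
    · exact iff_of_true p1 p2
    · exact iff_of_false p1 (not_not.mpr p2)
    · rw [ia_nadj p1, ia_nadj p2, ia_nadj (hin a ha b hb hva.symm hvb.symm p1 p2)] at hm
      exact absurd hm h0
  intro a ha b hb c hc' hva hvb hvc hab hac hbc m1 m2 m3
  have k1 := key a ha b hb hva hvb hab m1
  have k2 := key a ha c hc' hva hvc hac m2
  have k3 := key b hb c hc' hvb hvc hbc m3
  tauto

end Pool.Agent.Helper800Enc
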