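import Pool.Agent.R79.EG.Basic

/-! K_4^3-free 3-graphs encoded by a graph: links. -/

set_option autoImplicit false
open Finset
open scoped Classical

namespace Pool.Agent.Helper800Enc

open Pool.Agent.R79.EG

variable {n : ℕ}

theorem card_filter_prod {α β : Type*} (A : Finset α) (B : Finset β) (Q : α → β → Prop)
    [DecidablePred (fun p : α × β => Q p.1 p.2)] [∀ a, DecidablePred (Q a)] :
    ((A ×ˢ B).filter (fun p => Q p.1 p.2)).card = ∑ a ∈ A, (B.filter (Q a)).card := by
  simp only [card_filter]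
  rw [sum_product]

theorem card_filter_prod' {α β : Type*} (A : Finset α) (B : Finset β) (Q : α → β → Prop)
    [DecidablePred (fun p : α × β => Q p.1 p.2)] [∀ b, DecidablePred (fun a => Q a b)] :
    ((A ×ˢ B).filter (fun p => Q p.1 p.2)).card = ∑ b ∈ B, (A.filter (fun a => Q a b)).card := by
  simp only [card_filter]
  rw [sum_product_right]

/-- Mantel, ordered pairs. -/
theorem mantel {α : Type*} (M : Finset α) (L : α → α → Prop) (hs : ∀ x y, L x y → L y x)
    (ht : ∀ x ∈ M, ∀ y ∈ M, ∀ z ∈ M, L x y → L x z → L y z → False) :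
    2 * ((M ×ˢ M).filter (fun p => L p.1 p.2)).card ≤ M.card ^ 2 := by
  rcases M.eq_empty_or_nonempty with rfl | hM
  · simp
  obtain ⟨a, ha, hmax⟩ := exists_max_image M (fun x => (M.filter (L x)).card) hM
  set A := M.filter (L a) with hA
  set B := M.filter (fun y => ¬ L a y) with hB
  have hAB : A.card + B.card = M.card := by
    rw [hA, hB]; exact card_filter_add_card_filter_not _
  have hsub : (M ×ˢ M).filter (fun p => L p.1 p.2) ⊆
      (B ×ˢ M).filter (fun p => L p.1 p.2) ∪ (M ×ˢ B).filter (fun p => L p.1 p.2) := by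
    intro p hp
    rw [mem_filter, mem_product] at hp
    rw [mem_union, mem_filter, mem_filter, mem_product, mem_product]
    by_cases h1 : L a p.1
    · by_cases h2 : L a p.2
      · exact absurd hp.2 (fun h => ht a ha p.1 hp.1.1 p.2 hp.1.2 h1 h2 h)
      · right; exact ⟨⟨hp.1.1, by rw [hB, mem_filter]; exact ⟨hp.1.2, h2⟩⟩, hp.2⟩
    · left; exact ⟨⟨by rw [hB, mem_filter]; exact ⟨hp.1.1, h1⟩, hp.1.2⟩, hp.2⟩
  have h1 : ((B ×ˢ M).filter (fun p => L p.1 p.2)).card ≤ B.card * A.card := by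
    rw [card_filter_prod B M L]
    refine (sum_le_card_nsmul _ _ _ (fun x hx => hmax x ?_)).trans_eq (by rw [smul_eq_mul])
    rw [hB, mem_filter] at hx; exact hx.1
  have h2 : ((M ×ˢ B).filter (fun p => L p.1 p.2)).card ≤ B.card * A.card := by
    rw [card_filter_prod' M B L]
    refine (sum_le_card_nsmul _ _ A.card (fun x hx => ?_)).trans_eq (by rw [smul_eq_mul])
    rw [hB, mem_filter] at hx
    refine le_trans (card_le_card ?_) (hmax x hx.1)
    intro y hy
    rw [mem_filter] at hy ⊢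
    exact ⟨hy.1, hs _ _ hy.2⟩
  have h3 := (card_le_card hsub).trans (card_union_le _ _)
  have h4 : 4 * (A.card * B.card) ≤ (A.card + B.card) ^ 2 := by
    nlinarith [Nat.zero_le (A.card), sq_nonneg ((A.card : ℤ) - B.card), sq_nonneg (A.card - B.card),
      four_mul_le_sq_add (A.card) (B.card)]
  rw [← hAB]
  nlinarith [mul_comm A.card B.card]

/-- ordered pairs of the link of `v` inside `U` -/
noncomputable def D (H : Finset (Finset (Fin n))) (U : Finset (Fin n)) (v : Fin n) : ℕ :=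
  (((U.erase v) ×ˢ (U.erase v)).filter
    (fun p => p.1 ≠ p.2 ∧ ({v, p.1, p.2} : Finset (Fin n)) ∈ H)).card

def FreeOn (H : Finset (Finset (Fin n))) (U : Finset (Fin n)) : Prop :=
  ∀ a ∈ U, ∀ b ∈ U, ∀ c ∈ U, ∀ d ∈ U, a ≠ b → a ≠ c → a ≠ d → b ≠ c → b ≠ d → c ≠ d →
    ({a, b, c} : Finset (Fin n)) ∈ H → ({a, b, d} : Finset (Fin n)) ∈ H →
    ({a, c, d} : Finset (Fin n)) ∈ H → ({b, c, d} : Finset (Fin n)) ∈ H → False

def Good (H : Finset (Finset (Fin n))) (U : Finset (Fin n)) : Prop :=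
  ∃ v ∈ U, 2 * D H U v ≤ (U.card - 1) ^ 2

noncomputable def T (H : Finset (Finset (Fin n))) (U : Finset (Fin n)) : ℕ :=
  (H.filter (· ⊆ U)).card

theorem T_step (H : Finset (Finset (Fin n))) (h3 : ∀ s ∈ H, s.card = 3) (U : Finset (Fin n))
    (v : Fin n) (hv : v ∈ U) : 2 * T H U ≤ 2 * T H (U.erase v) + D H U v := by
  set X := (H.filter (· ⊆ U)).filter (fun s => v ∈ s) with hX
  have e1 : T H U = X.card + T H (U.erase v) := by
    unfold T
    rw [← card_filter_add_card_filter_not (s := H.filter (· ⊆ U)) (fun s => v ∈ s)]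
    congr 2
    ext s
    simp only [mem_filter, subset_erase]
    tauto
  have e2 : 2 * X.card ≤ D H U v := by
    set Y := (((U.erase v) ×ˢ (U.erase v)).filter
      (fun p => p.1 ≠ p.2 ∧ ({v, p.1, p.2} : Finset (Fin n)) ∈ H)) with hY
    have hmap : ∀ p ∈ Y, ({v, p.1, p.2} : Finset (Fin n)) ∈ X := by
      intro p hp
      rw [hY, mem_filter, mem_product, mem_erase, mem_erase] at hp
      rw [hX, mem_filter, mem_filter]
      refine ⟨⟨hp.2.2, ?_⟩, by simp⟩
      intro z hz
      simp only [mem_insert, mem_singleton] at hz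
      rcases hz with rfl | rfl | rfl
      · exact hv
      · exact hp.1.1.2
      · exact hp.1.2.2
    have hD : D H U v = Y.card := rfl
    rw [hD, card_eq_sum_card_fiberwise hmap, mul_comm, ← smul_eq_mul]
    refine card_nsmul_le_sum _ _ _ (fun s hs => ?_)
    rw [hX, mem_filter, mem_filter] at hs
    obtain ⟨a, b, c, hab, hac, hbc, rfl⟩ := card_eq_three.mp (h3 s hs.1.1)
    have key : ∀ x y : Fin n, v ≠ x → v ≠ y → x ≠ y → ({v, x, y} : Finset (Fin n)) = {a, b, c} →
        2 ≤ (Y.filter (fun p => ({v, p.1, p.2} : Finset (Fin n)) = {a, b, c})).card := by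
      intro x y hvx hvy hxy he
      have hx : x ∈ U := hs.1.2 (by rw [← he]; simp)
      have hy : y ∈ U := hs.1.2 (by rw [← he]; simp)
      have he' : ({v, y, x} : Finset (Fin n)) = {a, b, c} := by
        rw [← he, pair_comm y x]
      refine one_lt_card.mpr ⟨(x, y), ?_, (y, x), ?_, ?_⟩
      · rw [mem_filter, hY, mem_filter, mem_product, mem_erase, mem_erase]
        exact ⟨⟨⟨⟨hvx.symm, hx⟩, ⟨hvy.symm, hy⟩⟩, hxy, by rw [he]; exact hs.1.1⟩, he⟩
      · rw [mem_filter, hY, mem_filter, mem_product, mem_erase, mem_erase]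
        exact ⟨⟨⟨⟨hvy.symm, hy⟩, ⟨hvx.symm, hx⟩⟩, hxy.symm, by rw [he']; exact hs.1.1⟩, he'⟩
      · intro h
        rw [Prod.mk.injEq] at h
        exact hxy h.1
    have hv2 := hs.2
    simp only [mem_insert, mem_singleton] at hv2
    rcases hv2 with rfl | rfl | rfl
    · exact key b c hab hac hbc rfl
    · exact key a c hab.symm hbc hac (insert_comm _ _ _)
    · exact key a b hac.symm hbc.symm hab (by rw [insert_comm v a, pair_comm v b])
  omega

theorem sum_bound (H : Finset (Finset (Fin n))) (h3 : ∀ s ∈ H, s.card = 3)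
    (hg : ∀ U : Finset (Fin n), U.Nonempty → Good H U) :
    ∀ k : ℕ, ∀ U : Finset (Fin n), U.card = k → T H U ≤ ∑ i ∈ range k, i ^ 2 / 4 := by
  intro k
  induction k with
  | zero =>
    intro U hU
    rw [card_eq_zero] at hU
    subst hU
    rw [range_zero, sum_empty]
    unfold T
    rw [Nat.le_zero, card_eq_zero, filter_eq_empty_iff]
    intro s hs h
    have := h3 s hs
    rw [subset_empty] at h
    rw [h] at this
    simp at this
  | succ k ih =>
    intro U hU
    obtain ⟨v, hv, hD⟩ := hg U (card_pos.mp (by omega))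
    have h1 := ih (U.erase v) (by rw [card_erase_of_mem hv, hU]; rfl)
    have h2 := T_step H h3 U v hv
    rw [sum_range_succ]
    rw [hU, Nat.add_sub_cancel] at hD
    have h4 : T H U - T H (U.erase v) ≤ k ^ 2 / 4 := by
      rw [Nat.le_div_iff_mul_le (by norm_num)]
      omega
    omega

theorem good_small (H : Finset (Finset (Fin n))) (U : Finset (Fin n)) (hU : U.Nonempty)
    (h : U.card ≤ 3) : Good H U := by
  obtain ⟨v, hv⟩ := hU
  refine ⟨v, hv, ?_⟩
  have h1 : D H U v ≤ (U.card - 1) * (U.card - 1) - (U.card - 1) := by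
    unfold D
    rw [← card_erase_of_mem hv, ← offDiag_card]
    refine card_le_card ?_
    intro p hp
    rw [mem_filter, mem_product] at hp
    rw [mem_offDiag]
    exact ⟨hp.1.1, hp.1.2, hp.2.1⟩
  have h2 : U.card - 1 = 0 ∨ U.card - 1 = 1 ∨ U.card - 1 = 2 := by omega
  rcases h2 with h2 | h2 | h2 <;> rw [h2] at h1 ⊢ <;> omega

/-- a vertex with triangle-free link is good -/
theorem good_of_link (H : Finset (Finset (Fin n))) (U : Finset (Fin n)) (v : Fin n) (hv : v ∈ U)
    (h : ∀ a ∈ U, ∀ b ∈ U, ∀ c ∈ U, v ≠ a → v ≠ b → v ≠ c → a ≠ b → a ≠ c → b ≠ c →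
      ({v, a, b} : Finset (Fin n)) ∈ H → ({v, a, c} : Finset (Fin n)) ∈ H →
      ({v, b, c} : Finset (Fin n)) ∈ H → False) : Good H U := by
  refine ⟨v, hv, ?_⟩
  have h1 := mantel (U.erase v) (fun x y => x ≠ y ∧ ({v, x, y} : Finset (Fin n)) ∈ H)
    (fun x y hxy => ⟨hxy.1.symm, by rw [pair_comm y x]; exact hxy.2⟩)
    (fun x hx y hy z hz h1 h2 h3 => by
      rw [mem_erase] at hx hy hz
      exact h x hx.2 y hy.2 z hz.2 hx.1.symm hy.1.symm hz.1.symm h1.1 h2.1 h3.1 h1.2 h2.2 h3.2)
  rw [card_erase_of_mem hv] at h1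
  unfold D
  convert h1

end Pool.Agent.Helper800Enc
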