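import Pool.Agent.R79.EG.Basic

/-! K_4^3-free 3-graphs encoded by a graph: the construction. -/

set_option autoImplicit false
open Finset
open scoped Classical

namespace Pool.Agent.Helper800Enc

open Pool.Agent.R79.EG

variable {n : ℕ}

/-- `i < j` are adjacent when `j` is even -/
def EG (n : ℕ) : SimpleGraph (Fin n) where
  Adj i j := i ≠ j ∧ Even (max i.val j.val)
  symm := ⟨fun i j h => ⟨h.1.symm, by rw [max_comm]; exact h.2⟩⟩
  loopless := ⟨fun i h => h.1 rfl⟩

theorem ia_EG {i j : Fin n} (h : i < j) : ia (EG n) i j = if Even j.val then 1 else 0 := by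
  unfold ia EG
  have : max i.val j.val = j.val := max_eq_right (le_of_lt h)
  simp only [this]
  by_cases hj : Even j.val
  · rw [if_pos hj, if_pos ⟨ne_of_lt h, hj⟩]
  · rw [if_neg hj, if_neg (fun h => hj h.2)]

theorem mem_EG {i j k : Fin n} (hij : i < j) (hjk : j < k) :
    ({i, j, k} : Finset (Fin n)) ∈ encoded (EG n) {1, 2} ↔ (j.val + k.val) % 2 = 1 := by
  rw [mem_encoded _ _ hij.ne (hij.trans hjk).ne hjk.ne, ia_EG hij, ia_EG (hij.trans hjk), ia_EG hjk]
  simp only [mem_insert, mem_singleton]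
  by_cases h1 : Even j.val <;> by_cases h2 : Even k.val
  · rw [if_pos h1, if_pos h2]
    rw [Nat.even_iff] at h1 h2
    omega
  · rw [if_pos h1, if_neg h2]
    rw [Nat.even_iff] at h1 h2
    omega
  · rw [if_neg h1, if_pos h2]
    rw [Nat.even_iff] at h1 h2
    omega
  · rw [if_neg h1, if_neg h2]
    rw [Nat.even_iff] at h1 h2
    omega

theorem free_EG (n : ℕ) : KFree 4 (encoded (EG n) {1, 2}) := by
  intro S hS
  by_contra hno
  push Not at hno
  let f := S.orderEmbOfFin hS
  have hf : ∀ i, f i ∈ S := fun i => S.orderEmbOfFin_mem hS i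
  have hlt : ∀ i j : Fin 4, i < j → f i < f j := fun i j h => f.lt_iff_lt.mpr h
  have key : ∀ i j k : Fin 4, i < j → j < k → ((f j).val + (f k).val) % 2 = 1 := by
    intro i j k hij hjk
    rw [← mem_EG (hlt i j hij) (hlt j k hjk)]
    refine hno _ ?_ ?_
    · intro x hx
      simp only [mem_insert, mem_singleton] at hx
      rcases hx with rfl | rfl | rfl <;> exact hf _
    · rw [card_insert_of_notMem, card_insert_of_notMem, card_singleton]
      · rw [mem_singleton]; exact (hlt j k hjk).ne
      · rw [mem_insert, mem_singleton, not_or]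
        exact ⟨(hlt i j hij).ne, (hlt i k (hij.trans hjk)).ne⟩
  have k1 := key 0 1 2 (by decide) (by decide)
  have k2 := key 0 1 3 (by decide) (by decide)
  have k3 := key 0 2 3 (by decide) (by decide)
  omega

theorem sum_par (k : ℕ) : ∑ j ∈ range k, (if (j + k) % 2 = 1 then j else 0) = k ^ 2 / 4 := by
  induction k using Nat.strong_induction_on with
  | _ k ih =>
    match k with
    | 0 => simp
    | 1 => simp
    | (m + 2) =>
      rw [sum_range_succ, sum_range_succ]
      have e : ∀ j ∈ range m, (if (j + (m + 2)) % 2 = 1 then j else 0) =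
          (if (j + m) % 2 = 1 then j else 0) := by
        intro j _
        have : (j + (m + 2)) % 2 = (j + m) % 2 := by omega
        rw [this]
      rw [sum_congr rfl e, ih m (by omega)]
      have h1 : ¬ ((m + (m + 2)) % 2 = 1) := by omega
      have h2 : (m + 1 + (m + 2)) % 2 = 1 := by omega
      rw [if_neg h1, if_pos h2]
      have h3 : (m + 2) ^ 2 = m ^ 2 + 4 * (m + 1) := by ring
      rw [h3]
      omega

theorem lower (n : ℕ) : ∑ i ∈ range n, i ^ 2 / 4 ≤ (encoded (EG n) {1, 2}).card := by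
  set A : Finset (Fin n × Fin n × Fin n) := univ.filter (fun p =>
    p.2.2 < p.2.1 ∧ p.2.1 < p.1 ∧ (p.2.1.val + p.1.val) % 2 = 1) with hA
  have h1 : A.card ≤ (encoded (EG n) {1, 2}).card := by
    refine card_le_card_of_injOn (fun p => {p.2.2, p.2.1, p.1}) ?_ ?_
    · intro p hp
      rw [hA, mem_coe, mem_filter] at hp
      rw [mem_coe]
      exact (mem_EG hp.2.1 hp.2.2.1).mpr hp.2.2.2
    · rintro ⟨k, j, i⟩ hp ⟨k', j', i'⟩ hp' he
      rw [hA, mem_coe, mem_filter] at hp hp'
      simp only at hp hp' he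
      have g1 : i ∈ ({i', j', k'} : Finset (Fin n)) := by rw [← he]; simp
      have g2 : j ∈ ({i', j', k'} : Finset (Fin n)) := by rw [← he]; simp
      have g3 : k ∈ ({i', j', k'} : Finset (Fin n)) := by rw [← he]; simp
      simp only [mem_insert, mem_singleton, Fin.ext_iff] at g1 g2 g3
      have o1 := hp.2.1
      have o2 := hp.2.2.1
      have o3 := hp'.2.1
      have o4 := hp'.2.2.1
      rw [Fin.lt_def] at o1 o2 o3 o4
      rw [Prod.mk.injEq, Prod.mk.injEq, Fin.ext_iff, Fin.ext_iff, Fin.ext_iff]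
      omega
  refine le_trans ?_ h1
  rw [hA, card_filter, Fintype.sum_prod_type]
  simp only [Fintype.sum_prod_type]
  have e1 : ∑ i ∈ range n, i ^ 2 / 4 = ∑ k : Fin n, k.val ^ 2 / 4 :=
    (Fin.sum_univ_eq_sum_range (fun i => i ^ 2 / 4) n).symm
  rw [e1]
  refine sum_le_sum (fun k _ => ?_)
  rw [← sum_par k.val]
  have e2 : ∑ j ∈ range k.val, (if (j + k.val) % 2 = 1 then j else 0) ≤
      ∑ j ∈ range n, (if j < k.val ∧ (j + k.val) % 2 = 1 then j else 0) := by
    refine le_trans (sum_le_sum (fun j hj => ?_)) (sum_le_sum_of_subset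
      (range_subset_range.mpr k.isLt.le))
    rw [mem_range] at hj
    by_cases h : (j + k.val) % 2 = 1
    · rw [if_pos h, if_pos ⟨hj, h⟩]
    · rw [if_neg h]; exact Nat.zero_le _
  refine e2.trans ?_
  rw [← Fin.sum_univ_eq_sum_range (fun j => if j < k.val ∧ (j + k.val) % 2 = 1 then j else 0) n]
  refine sum_le_sum (fun j _ => ?_)
  by_cases h : j.val < k.val ∧ (j.val + k.val) % 2 = 1
  · rw [if_pos h]
    have e3 : (univ.filter (fun x : Fin n => x < j)).card = j.val := by
      have : univ.filter (fun x : Fin n => x < j) = Iio j := by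
        ext x; simp
      rw [this, Fin.card_Iio]
    have e4 : j.val = ∑ x : Fin n, (if x < j then 1 else 0) := by rw [← card_filter, e3]
    refine (le_of_eq e4).trans (sum_le_sum (fun x _ => ?_))
    by_cases hx : x < j
    · rw [if_pos hx, if_pos ⟨hx, Fin.lt_def.mpr h.1, h.2⟩]
    · rw [if_neg hx]; exact Nat.zero_le _
  · rw [if_neg h]; exact Nat.zero_le _

end Pool.Agent.Helper800Enc
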