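import Pool.Agent.Helper800_Enc.Upper
import Pool.Agent.Helper800_Enc.Lower

/-! K_4^3-free 3-graphs encoded by a graph: coverings. -/

set_option autoImplicit false
open Finset
open scoped Classical

namespace Pool.Agent.Helper800Enc

open Pool.Agent.R79.EG

variable {n : ℕ}

theorem edgesIn_le {G : SimpleGraph (Fin n)} {s : Finset (Fin n)} (hs : s.card = 3) :
    edgesIn G s < 4 := by
  obtain ⟨a, b, c, hab, hac, hbc, rfl⟩ := card_eq_three.mp hs
  rw [edgesIn_triple G hab hac hbc]
  rcases ia01 G a b with h | h <;> rcases ia01 G a c with h' | h' <;>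
    rcases ia01 G b c with h'' | h'' <;> omega

theorem mem_comp {G : SimpleGraph (Fin n)} {R : Finset ℕ} {s : Finset (Fin n)} (hs : s.card = 3) :
    s ∈ encoded G (range 4 \ R) ↔ s ∉ encoded G R := by
  unfold encoded
  rw [mem_filter, mem_filter, mem_powersetCard, mem_sdiff, mem_range]
  have := edgesIn_le (G := G) hs
  constructor
  · rintro ⟨_, _, h⟩ ⟨_, h'⟩
    exact h h'
  · intro h
    exact ⟨⟨subset_univ _, hs⟩, this, fun h' => h ⟨⟨subset_univ _, hs⟩, h'⟩⟩

theorem card_comp (G : SimpleGraph (Fin n)) (R : Finset ℕ) :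
    (encoded G R).card + (encoded G (range 4 \ R)).card = n.choose 3 := by
  have h : encoded G (range 4 \ R) = (univ.powersetCard 3).filter (fun s => ¬ edgesIn G s ∈ R) := by
    unfold encoded
    refine filter_congr (fun s hs => ?_)
    rw [mem_powersetCard] at hs
    rw [mem_sdiff, mem_range]
    have := edgesIn_le (G := G) hs.2
    tauto
  rw [h]
  unfold encoded
  rw [card_filter_add_card_filter_not, card_powersetCard, card_univ, Fintype.card_fin]

theorem half_sum (n : ℕ) :
    ∑ i ∈ range n, i ^ 2 / 4 + ∑ j ∈ range (n - 1), j ^ 2 / 4 = n.choose 3 := by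
  induction n with
  | zero => simp
  | succ m ih =>
    rcases m with _ | m
    · rfl
    · have e1 : m + 1 + 1 - 1 = m + 1 := by omega
      have e2 : m + 1 - 1 = m := by omega
      rw [e2] at ih
      have e5 : (m + 1 + 1).choose 3 = (m + 1).choose 2 + (m + 1).choose 3 :=
        Nat.choose_succ_succ' (m + 1) 2
      have e6 : (m + 1).choose 2 = (m + 1) * m / 2 := by rw [Nat.choose_two_right, e2]
      rw [e1, e5, e6, sum_range_succ _ (m + 1), sum_range_succ (fun j => j ^ 2 / 4) m]
      have e3 : m ^ 2 / 4 + (m + 1) ^ 2 / 4 = (m + 1) * m / 2 := by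
        rcases Nat.even_or_odd' m with ⟨c, rfl | rfl⟩
        · have a1 : (2 * c) ^ 2 = 4 * (c * c) := by ring
          have a2 : (2 * c + 1) ^ 2 = 4 * (c * c + c) + 1 := by ring
          have a3 : (2 * c + 1) * (2 * c) = 2 * (2 * (c * c) + c) := by ring
          rw [a1, a2, a3]
          omega
        · have a1 : (2 * c + 1) ^ 2 = 4 * (c * c + c) + 1 := by ring
          have a2 : (2 * c + 1 + 1) ^ 2 = 4 * (c * c + 2 * c + 1) := by ring
          have a3 : (2 * c + 1 + 1) * (2 * c + 1) = 2 * (2 * (c * c) + 3 * c + 1) := by ring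
          rw [a1, a2, a3]
          omega
      have e4 : ∑ i ∈ range (m + 1), i ^ 2 / 4 = ∑ i ∈ range m, i ^ 2 / 4 + m ^ 2 / 4 :=
        sum_range_succ _ _
      omega

theorem closed (n : ℕ) : 24 * ∑ i ∈ range n, i ^ 2 / 4 + 6 * (n / 2) = n * (n - 1) * (2 * n - 1) := by
  induction n using Nat.strong_induction_on with
  | _ n ih =>
    match n with
    | 0 => simp
    | 1 => simp
    | (m + 2) =>
      rw [sum_range_succ, sum_range_succ]
      have h := ih m (by omega)
      have e1 : (m + 2) / 2 = m / 2 + 1 := by omega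
      have e2 : m ^ 2 / 4 + (m + 1) ^ 2 / 4 = m * (m + 1) / 2 := by
        rcases Nat.even_or_odd' m with ⟨c, rfl | rfl⟩
        · have a1 : (2 * c) ^ 2 = 4 * (c * c) := by ring
          have a2 : (2 * c + 1) ^ 2 = 4 * (c * c + c) + 1 := by ring
          have a3 : 2 * c * (2 * c + 1) = 2 * (2 * (c * c) + c) := by ring
          rw [a1, a2, a3]
          omega
        · have a1 : (2 * c + 1) ^ 2 = 4 * (c * c + c) + 1 := by ring
          have a2 : (2 * c + 1 + 1) ^ 2 = 4 * (c * c + 2 * c + 1) := by ring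
          have a3 : (2 * c + 1) * (2 * c + 1 + 1) = 2 * (2 * (c * c) + 3 * c + 1) := by ring
          rw [a1, a2, a3]
          omega
      have e3 : 2 * (m * (m + 1) / 2) = m * (m + 1) :=
        Nat.mul_div_cancel' (even_iff_two_dvd.mp (Nat.even_mul_succ_self m))
      have e4 : 24 * (∑ i ∈ range m, i ^ 2 / 4 + m ^ 2 / 4 + (m + 1) ^ 2 / 4) =
          24 * ∑ i ∈ range m, i ^ 2 / 4 + 12 * (m * (m + 1)) := by omega
      rw [e4, e1]
      rcases m with _ | m
      · simp
      · have b1 : m + 1 - 1 = m := by omega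
        have b2 : 2 * (m + 1) - 1 = 2 * m + 1 := by omega
        have b3 : m + 1 + 2 - 1 = m + 2 := by omega
        have b4 : 2 * (m + 1 + 2) - 1 = 2 * m + 5 := by omega
        rw [b1, b2] at h
        rw [b3, b4]
        nlinarith [h]

/-- Turán's number `f (3s + r)` -/
theorem turan_lt (s r : ℕ) (hr : r < 3) (hs : 2 ≤ s) :
    (if r = 0 then s * (s - 1) * (2 * s - 1) else if r = 1 then s ^ 2 * (2 * s - 1) else
      s ^ 2 * (2 * s + 1)) < ∑ j ∈ range (3 * s + r - 1), j ^ 2 / 4 := by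
  have h := closed (3 * s + r - 1)
  obtain ⟨t, rfl⟩ := Nat.exists_eq_add_of_le hs
  have c1 : 2 + t - 1 = t + 1 := by omega
  have c2 : 2 * (2 + t) - 1 = 2 * t + 3 := by omega
  interval_cases r
  · rw [if_pos rfl, c1, c2]
    have d1 : 3 * (2 + t) + 0 - 1 = 3 * t + 5 := by omega
    rw [d1] at h ⊢
    have d2 : 3 * t + 5 - 1 = 3 * t + 4 := by omega
    have d3 : 2 * (3 * t + 5) - 1 = 6 * t + 9 := by omega
    rw [d2, d3] at h
    have d4 : 2 * ((3 * t + 5) / 2) ≤ 3 * t + 5 := Nat.mul_div_le _ _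
    nlinarith [h, d4, Nat.zero_le t, Nat.zero_le (t * t), Nat.zero_le (t * t * t)]
  · rw [if_neg (by norm_num), if_pos rfl, c2]
    have d1 : 3 * (2 + t) + 1 - 1 = 3 * t + 6 := by omega
    rw [d1] at h ⊢
    have d2 : 3 * t + 6 - 1 = 3 * t + 5 := by omega
    have d3 : 2 * (3 * t + 6) - 1 = 6 * t + 11 := by omega
    rw [d2, d3] at h
    have d4 : 2 * ((3 * t + 6) / 2) ≤ 3 * t + 6 := Nat.mul_div_le _ _
    nlinarith [h, d4, Nat.zero_le t, Nat.zero_le (t * t), Nat.zero_le (t * t * t)]
  · rw [if_neg (by norm_num), if_neg (by norm_num)]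
    have d1 : 3 * (2 + t) + 2 - 1 = 3 * t + 7 := by omega
    rw [d1] at h ⊢
    have d2 : 3 * t + 7 - 1 = 3 * t + 6 := by omega
    have d3 : 2 * (3 * t + 7) - 1 = 6 * t + 13 := by omega
    rw [d2, d3] at h
    have d4 : 2 * ((3 * t + 7) / 2) ≤ 3 * t + 7 := Nat.mul_div_le _ _
    nlinarith [h, d4, Nat.zero_le t, Nat.zero_le (t * t), Nat.zero_le (t * t * t)]

end Pool.Agent.Helper800Enc
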