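import Pool.Agent.Helper800_Enc.Cases2

/-! K_4^3-free 3-graphs encoded by a graph: the upper bound. -/

set_option autoImplicit false
open Finset
open scoped Classical

namespace Pool.Agent.Helper800Enc

open Pool.Agent.R79.EG

variable {n : ℕ}

/-- rule {1,2,3}: all edges share a vertex -/
theorem center (G : SimpleGraph (Fin n)) (R : Finset ℕ) (h1 : 1 ∈ R) (h2 : 2 ∈ R) (h3 : 3 ∈ R)
    (U : Finset (Fin n)) (hU : 4 ≤ U.card) (hf : FreeOn (encoded G R) U) :
    ∃ c ∈ U, ∀ x ∈ U, ∀ y ∈ U, G.Adj x y → x = c ∨ y = c := by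
  have hR : ∀ x y z w, 1 + ia G x y + ia G z w ∈ R := by
    intro x y z w
    rcases ia01 G x y with h | h <;> rcases ia01 G z w with h' | h' <;> rw [h, h']
    · exact h1
    · exact h2
    · exact h2
    · exact h3
  -- a triple with an edge is in the 3-graph
  have hT : ∀ a b c : Fin n, a ≠ b → a ≠ c → b ≠ c → (G.Adj a b ∨ G.Adj a c ∨ G.Adj b c) →
      ({a, b, c} : Finset (Fin n)) ∈ encoded G R := by
    intro a b c hab hac hbc h
    rw [mem_encoded G R hab hac hbc]
    rcases h with h | h | h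
    · rw [ia_adj h]; exact hR a c b c
    · rw [ia_adj h, add_comm (ia G a b) 1]; exact hR a b b c
    · rw [ia_adj h, add_comm, ← add_assoc]; exact hR a b a c
  -- no two disjoint edges
  have hdj : ∀ a ∈ U, ∀ b ∈ U, ∀ c ∈ U, ∀ d ∈ U, G.Adj a b → G.Adj c d → a ≠ c → a ≠ d → b ≠ c →
      b ≠ d → False := by
    intro a ha b hb c hc d hd e1 e2 hac had hbc hbd
    exact hf a ha b hb c hc d hd e1.ne hac had hbc hbd e2.ne
      (hT _ _ _ e1.ne hac hbc (Or.inl e1)) (hT _ _ _ e1.ne had hbd (Or.inl e1))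
      (hT _ _ _ hac had e2.ne (Or.inr (Or.inr e2))) (hT _ _ _ hbc hbd e2.ne (Or.inr (Or.inr e2)))
  by_cases hE : ∃ a ∈ U, ∃ b ∈ U, G.Adj a b
  · obtain ⟨a, ha, b, hb, hab⟩ := hE
    by_cases hc : ∃ c ∈ U, c ≠ b ∧ G.Adj a c
    · obtain ⟨c, hc, hcb, hac⟩ := hc
      refine ⟨a, ha, fun x hx y hy hxy => ?_⟩
      by_contra hno
      push Not at hno
      have k1 : x = b ∨ y = b := by
        by_contra hk
        push Not at hk
        exact hdj a ha b hb x hx y hy hab hxy hno.1.symm hno.2.symm hk.1.symm hk.2.symm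
      have k2 : x = c ∨ y = c := by
        by_contra hk
        push Not at hk
        exact hdj a ha c hc x hx y hy hac hxy hno.1.symm hno.2.symm hk.1.symm hk.2.symm
      have hbc : G.Adj b c := by
        rcases k1 with rfl | rfl <;> rcases k2 with rfl | rfl
        · exact absurd rfl hcb
        · exact hxy
        · exact hxy.symm
        · exact absurd rfl hcb
      obtain ⟨d, hd, hd'⟩ : ∃ d ∈ U, d ∉ ({a, b, c} : Finset (Fin n)) := by
        by_contra hk
        push Not at hk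
        have h5 := card_le_card (show U ⊆ {a, b, c} from fun z hz => hk z hz)
        have h6 : ({a, b, c} : Finset (Fin n)).card ≤ 3 := card_le_three
        omega
      simp only [mem_insert, mem_singleton, not_or] at hd'
      exact hf a ha b hb c hc d hd hab.ne hac.ne (Ne.symm hd'.1) hbc.ne (Ne.symm hd'.2.1)
        (Ne.symm hd'.2.2) (hT _ _ _ hab.ne hac.ne hbc.ne (Or.inl hab))
        (hT _ _ _ hab.ne (Ne.symm hd'.1) (Ne.symm hd'.2.1) (Or.inl hab))
        (hT _ _ _ hac.ne (Ne.symm hd'.1) (Ne.symm hd'.2.2) (Or.inl hac))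
        (hT _ _ _ hbc.ne (Ne.symm hd'.2.1) (Ne.symm hd'.2.2) (Or.inl hbc))
    · push Not at hc
      refine ⟨b, hb, fun x hx y hy hxy => ?_⟩
      by_contra hno
      push Not at hno
      have k1 : x = a ∨ y = a := by
        by_contra hk
        push Not at hk
        exact hdj a ha b hb x hx y hy hab hxy hk.1.symm hk.2.symm hno.1.symm hno.2.symm
      rcases k1 with rfl | rfl
      · exact hc y hy hno.2 hxy
      · exact hc x hx hno.1 hxy.symm
  · push Not at hE
    obtain ⟨c, hc⟩ := card_pos.mp (by omega : 0 < U.card)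
    exact ⟨c, hc, fun x hx y hy hxy => absurd hxy (hE x hx y hy)⟩

/-- rule {1,2,3} -/
theorem good_123 (G : SimpleGraph (Fin n)) (R : Finset ℕ) (h0 : 0 ∉ R) (h1 : 1 ∈ R) (h2 : 2 ∈ R)
    (h3 : 3 ∈ R) (U : Finset (Fin n)) (hU : U.Nonempty) (hf : FreeOn (encoded G R) U) :
    Good (encoded G R) U := by
  by_cases hU4 : U.card ≤ 3
  · exact good_small _ U hU hU4
  obtain ⟨c, hc, hcen⟩ := center G R h1 h2 h3 U (by omega) hf
  obtain ⟨v, hv⟩ := card_pos.mp (by rw [card_erase_of_mem hc]; omega : 0 < (U.erase c).card)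
  rw [mem_erase] at hv
  refine ⟨v, hv.2, ?_⟩
  have hsub : ((U.erase v) ×ˢ (U.erase v)).filter
      (fun p => p.1 ≠ p.2 ∧ ({v, p.1, p.2} : Finset (Fin n)) ∈ encoded G R) ⊆
      ({c} ×ˢ ((U.erase v).erase c)) ∪ (((U.erase v).erase c) ×ˢ {c}) := by
    rintro ⟨a, b⟩ hp
    rw [mem_filter, mem_product, mem_erase, mem_erase] at hp
    obtain ⟨⟨⟨hav, ha⟩, ⟨hbv, hb⟩⟩, hab, hm⟩ := hp
    simp only at hav ha hbv hb hab hm
    rw [mem_encoded G R hav.symm hbv.symm hab] at hm
    simp only [mem_union, mem_product, mem_singleton, mem_erase]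
    by_cases hac : a = c
    · left; exact ⟨hac, ⟨fun h => hab (hac.trans h.symm), hbv, hb⟩⟩
    · by_cases hbc : b = c
      · right; exact ⟨⟨hac, hav, ha⟩, hbc⟩
      · exfalso
        have e1 : ¬ G.Adj v a := fun h => (hcen v hv.2 a ha h).elim hv.1 hac
        have e2 : ¬ G.Adj v b := fun h => (hcen v hv.2 b hb h).elim hv.1 hbc
        have e3 : ¬ G.Adj a b := fun h => (hcen a ha b hb h).elim hac hbc
        rw [ia_nadj e1, ia_nadj e2, ia_nadj e3] at hm
        exact h0 hm
  have h5 := (card_le_card hsub).trans (card_union_le _ _)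
  rw [card_product, card_product, card_singleton,
    card_erase_of_mem (mem_erase.mpr ⟨hv.1.symm, hc⟩), card_erase_of_mem hv.2] at h5
  have h6 : D (encoded G R) U v ≤ 2 * (U.card - 1 - 1) := by
    unfold D
    omega
  obtain ⟨m, hm⟩ : ∃ m, U.card - 1 = m + 1 := ⟨U.card - 2, by omega⟩
  rw [hm] at h6 ⊢
  rw [Nat.add_sub_cancel] at h6
  nlinarith [four_mul_le_sq_add m 1, Nat.zero_le m]

/-- all rules with four vertices -/
theorem vac_0123 (G : SimpleGraph (Fin n)) (R : Finset ℕ) (h0 : 0 ∈ R) (h1 : 1 ∈ R) (h2 : 2 ∈ R)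
    (h3 : 3 ∈ R) (hU : 4 ≤ n) (hf : FreeOn (encoded G R) univ) : False := by
  have hR : ∀ a b c : Fin n, a ≠ b → a ≠ c → b ≠ c → ({a, b, c} : Finset (Fin n)) ∈ encoded G R := by
    intro a b c hab hac hbc
    rw [mem_encoded G R hab hac hbc]
    rcases ia01 G a b with h | h <;> rcases ia01 G a c with h' | h' <;>
      rcases ia01 G b c with h'' | h'' <;> rw [h, h', h''] <;> assumption
  have i0 : (⟨0, by omega⟩ : Fin n) ≠ ⟨1, by omega⟩ := by simp
  have i1 : (⟨0, by omega⟩ : Fin n) ≠ ⟨2, by omega⟩ := by simp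
  have i2 : (⟨0, by omega⟩ : Fin n) ≠ ⟨3, by omega⟩ := by simp
  have i3 : (⟨1, by omega⟩ : Fin n) ≠ ⟨2, by omega⟩ := by simp
  have i4 : (⟨1, by omega⟩ : Fin n) ≠ ⟨3, by omega⟩ := by simp
  have i5 : (⟨2, by omega⟩ : Fin n) ≠ ⟨3, by omega⟩ := by simp
  exact hf _ (mem_univ _) _ (mem_univ _) _ (mem_univ _) _ (mem_univ _) i0 i1 i2 i3 i4 i5
    (hR _ _ _ i0 i1 i3) (hR _ _ _ i0 i2 i4) (hR _ _ _ i1 i2 i5) (hR _ _ _ i3 i4 i5)

/-- rule {0,1,3}: at most four non-neighbours -/
theorem W_le (G : SimpleGraph (Fin n)) (R : Finset ℕ) (h0 : 0 ∈ R) (h1 : 1 ∈ R) (h3 : 3 ∈ R)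
    (U : Finset (Fin n)) (hf : FreeOn (encoded G R) U) (v : Fin n) (hv : v ∈ U) :
    (Wb G U v).card ≤ 4 := by
  have hR : ∀ x y, ia G x y ∈ R := by
    intro x y
    rcases ia01 G x y with h | h <;> rw [h]
    · exact h0
    · exact h1
  -- triples of non-neighbours have exactly two edges
  have h2e : ∀ x ∈ Wb G U v, ∀ y ∈ Wb G U v, ∀ z ∈ Wb G U v, x ≠ y → x ≠ z → y ≠ z →
      ia G x y + ia G x z + ia G y z = 2 := by
    intro x hx y hy z hz hxy hxz hyz
    rw [mem_Wb] at hx hy hz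
    by_contra hne
    have hin : ia G x y + ia G x z + ia G y z ∈ R := by
      rcases ia01 G x y with h | h <;> rcases ia01 G x z with h' | h' <;>
        rcases ia01 G y z with h'' | h'' <;> rw [h, h', h''] at hne ⊢ <;>
        first
          | exact h0
          | exact h1
          | exact h3
          | exact absurd rfl hne
    refine hf v hv x hx.1 y hy.1 z hz.1 hx.2.1.symm hy.2.1.symm hz.2.1.symm hxy hxz hyz ?_ ?_ ?_ ?_
    · rw [mem_encoded G R hx.2.1.symm hy.2.1.symm hxy, ia_nadj hx.2.2, ia_nadj hy.2.2]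
      simpa using hR x y
    · rw [mem_encoded G R hx.2.1.symm hz.2.1.symm hxz, ia_nadj hx.2.2, ia_nadj hz.2.2]
      simpa using hR x z
    · rw [mem_encoded G R hy.2.1.symm hz.2.1.symm hyz, ia_nadj hy.2.2, ia_nadj hz.2.2]
      simpa using hR y z
    · rw [mem_encoded G R hxy hxz hyz]; exact hin
  by_contra hgt
  obtain ⟨S, hS, hS5⟩ := exists_subset_card_eq (by omega : 5 ≤ (Wb G U v).card)
  let f := S.equivFinOfCardEq hS5
  have hm : ∀ i : Fin 5, ((f.symm i : S) : Fin n) ∈ Wb G U v := fun i => hS (f.symm i).2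
  have hne : ∀ i j : Fin 5, i ≠ j → ((f.symm i : S) : Fin n) ≠ f.symm j := by
    intro i j hij h
    exact hij (f.symm.injective (Subtype.ext h))
  have q : ∀ i j k : Fin 5, i ≠ j → i ≠ k → j ≠ k →
      ia G (f.symm i) (f.symm j) + ia G (f.symm i) (f.symm k) + ia G (f.symm j) (f.symm k) = 2 :=
    fun i j k hij hik hjk => h2e _ (hm i) _ (hm j) _ (hm k) (hne i j hij) (hne i k hik) (hne j k hjk)
  have q1 := q 0 1 2 (by decide) (by decide) (by decide)
  have q2 := q 0 1 3 (by decide) (by decide) (by decide)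
  have q3 := q 0 1 4 (by decide) (by decide) (by decide)
  have q4 := q 0 2 3 (by decide) (by decide) (by decide)
  have q5 := q 0 2 4 (by decide) (by decide) (by decide)
  have q6 := q 0 3 4 (by decide) (by decide) (by decide)
  have q7 := q 1 2 3 (by decide) (by decide) (by decide)
  have q8 := q 1 2 4 (by decide) (by decide) (by decide)
  have q9 := q 1 3 4 (by decide) (by decide) (by decide)
  have q10 := q 2 3 4 (by decide) (by decide) (by decide)
  omega

/-- rule {0,1,3} has at most 15 vertices -/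
theorem vac_013 (G : SimpleGraph (Fin n)) (R : Finset ℕ) (h0 : 0 ∈ R) (h1 : 1 ∈ R)
    (h3 : 3 ∈ R) (hU : 16 ≤ n) (hf : FreeOn (encoded G R) univ) : False := by
  have hW : ∀ v : Fin n, (Wb G univ v).card ≤ 4 := fun v =>
    W_le G R h0 h1 h3 univ hf v (mem_univ v)
  let v : Fin n := ⟨0, by omega⟩
  have hN := Nb_Wb G (mem_univ v)
  rw [card_univ, Fintype.card_fin] at hN
  have hWv := hW v
  obtain ⟨a, ha⟩ := card_pos.mp (by omega : 0 < (Nb G univ v).card)
  have hb : ((Nb G univ v).filter (G.Adj a)).Nonempty := by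
    rw [nonempty_iff_ne_empty]
    intro he
    have hsub : Nb G univ v ⊆ insert a (Wb G univ a) := by
      intro x hx
      rw [mem_insert, mem_Wb]
      by_cases hxa : x = a
      · exact Or.inl hxa
      · refine Or.inr ⟨mem_univ _, hxa, fun h => ?_⟩
        have : x ∈ (Nb G univ v).filter (G.Adj a) := mem_filter.mpr ⟨hx, h⟩
        rw [he] at this
        exact notMem_empty _ this
    have h5 := (card_le_card hsub).trans (card_insert_le _ _)
    have h6 := hW a
    omega
  obtain ⟨b, hb⟩ := hb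
  rw [mem_filter] at hb
  have hsub : Nb G univ v ⊆ {a, b} ∪ Wb G univ a ∪ Wb G univ b := by
    intro x hx
    rw [mem_union, mem_union, mem_insert, mem_singleton, mem_Wb, mem_Wb]
    by_contra hno
    simp only [mem_univ, true_and, not_or, not_and, not_not] at hno
    obtain ⟨⟨⟨hxa, hxb⟩, e1⟩, e2⟩ := hno
    have e1' := e1 hxa
    have e2' := e2 hxb
    rw [mem_Nb] at ha hx
    have hvb := (mem_Nb.mp hb.1).2
    have hab := hb.2
    refine hf v (mem_univ _) a (mem_univ _) b (mem_univ _) x (mem_univ _) ha.2.ne hvb.ne hx.2.ne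
      hab.ne (Ne.symm hxa) (Ne.symm hxb) ?_ ?_ ?_ ?_
    · rw [mem_encoded G R ha.2.ne hvb.ne hab.ne, ia_adj ha.2, ia_adj hvb, ia_adj hab]; exact h3
    · rw [mem_encoded G R ha.2.ne hx.2.ne (Ne.symm hxa), ia_adj ha.2, ia_adj hx.2, ia_adj e1']
      exact h3
    · rw [mem_encoded G R hvb.ne hx.2.ne (Ne.symm hxb), ia_adj hvb, ia_adj hx.2, ia_adj e2']
      exact h3
    · rw [mem_encoded G R hab.ne (Ne.symm hxa) (Ne.symm hxb), ia_adj hab, ia_adj e1', ia_adj e2']
      exact h3
  have h5 := (card_le_card hsub).trans (card_union_le _ _)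
  have h6 := card_union_le ({a, b} : Finset (Fin n)) (Wb G univ a)
  have h7 : ({a, b} : Finset (Fin n)).card ≤ 2 := card_le_two
  have h8 := hW a
  have h9 := hW b
  omega

theorem encoded_card3 {G : SimpleGraph (Fin n)} {R : Finset ℕ} : ∀ s ∈ encoded G R, s.card = 3 := by
  intro s hs
  unfold encoded at hs
  rw [mem_filter, mem_powersetCard] at hs
  exact hs.1.2

theorem free_of_KFree (H : Finset (Finset (Fin n))) (h : KFree 4 H) : FreeOn H univ := by
  intro a _ b _ c _ d _ hab hac had hbc hbd hcd t1 t2 t3 t4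
  obtain ⟨s, hs, hs3, hsH⟩ := h {a, b, c, d} (by
    rw [card_insert_of_notMem, card_insert_of_notMem, card_insert_of_notMem, card_singleton] <;>
      simp [hab, hac, had, hbc, hbd, hcd])
  have hcard : (({a, b, c, d} : Finset (Fin n)) \ s).card = 1 := by
    rw [card_sdiff_of_subset hs, hs3, card_insert_of_notMem, card_insert_of_notMem,
      card_insert_of_notMem, card_singleton] <;> simp [hab, hac, had, hbc, hbd, hcd]
  obtain ⟨z, hz⟩ := card_eq_one.mp hcard
  have hse : s = ({a, b, c, d} : Finset (Fin n)).erase z := by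
    rw [erase_eq, ← hz, Finset.sdiff_sdiff_eq_self hs]
  have hzm : z ∈ ({a, b, c, d} : Finset (Fin n)) := by
    have : z ∈ ({a, b, c, d} : Finset (Fin n)) \ s := by rw [hz]; exact mem_singleton_self z
    exact (mem_sdiff.mp this).1
  simp only [mem_insert, mem_singleton] at hzm
  apply hsH
  rw [hse]
  rcases hzm with rfl | rfl | rfl | rfl
  · have : ({z, b, c, d} : Finset (Fin n)).erase z = {b, c, d} := by
      ext x; simp only [mem_erase, mem_insert, mem_singleton]
      constructor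
      · tauto
      · rintro (rfl | rfl | rfl)
        · exact ⟨hab.symm, by tauto⟩
        · exact ⟨hac.symm, by tauto⟩
        · exact ⟨had.symm, by tauto⟩
    rw [this]; exact t4
  · have : ({a, z, c, d} : Finset (Fin n)).erase z = {a, c, d} := by
      ext x; simp only [mem_erase, mem_insert, mem_singleton]
      constructor
      · tauto
      · rintro (rfl | rfl | rfl)
        · exact ⟨hab, by tauto⟩
        · exact ⟨hbc.symm, by tauto⟩
        · exact ⟨hbd.symm, by tauto⟩
    rw [this]; exact t3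
  · have : ({a, b, z, d} : Finset (Fin n)).erase z = {a, b, d} := by
      ext x; simp only [mem_erase, mem_insert, mem_singleton]
      constructor
      · tauto
      · rintro (rfl | rfl | rfl)
        · exact ⟨hac, by tauto⟩
        · exact ⟨hbc, by tauto⟩
        · exact ⟨hcd.symm, by tauto⟩
    rw [this]; exact t2
  · have : ({a, b, c, z} : Finset (Fin n)).erase z = {a, b, c} := by
      ext x; simp only [mem_erase, mem_insert, mem_singleton]
      constructor
      · tauto
      · rintro (rfl | rfl | rfl)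
        · exact ⟨had, by tauto⟩
        · exact ⟨hbd, by tauto⟩
        · exact ⟨hcd, by tauto⟩
    rw [this]; exact t1

/-- the complement -/
theorem compl_encoded (G : SimpleGraph (Fin n)) (R : Finset ℕ) :
    encoded Gᶜ ((range 4).filter fun j => 3 - j ∈ R) = encoded G R := by
  ext s
  by_cases hs : s.card = 3
  · obtain ⟨x, y, z, hxy, hxz, hyz, rfl⟩ := card_eq_three.mp hs
    rw [mem_encoded _ _ hxy hxz hyz, mem_encoded _ _ hxy hxz hyz]
    have hc : ∀ u v : Fin n, u ≠ v → ia Gᶜ u v = 1 - ia G u v := by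
      intro u v huv
      unfold ia
      rw [SimpleGraph.compl_adj]
      by_cases h : G.Adj u v
      · simp [h]
      · simp [h, huv]
    rw [hc x y hxy, hc x z hxz, hc y z hyz]
    rcases ia01 G x y with p1 | p1 <;> rcases ia01 G x z with p2 | p2 <;>
      rcases ia01 G y z with p3 | p3 <;> rw [p1, p2, p3] <;> simp
  · constructor
    · intro h; exact absurd (encoded_card3 s h) hs
    · intro h; exact absurd (encoded_card3 s h) hs

theorem mem_compl_rule (R : Finset ℕ) (j : ℕ) (hj : j ≤ 3) :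
    (3 - j) ∈ ((range 4).filter fun i => 3 - i ∈ R) ↔ j ∈ R := by
  rw [mem_filter, mem_range]
  have : 3 - (3 - j) = j := by omega
  rw [this]
  constructor
  · exact fun h => h.2
  · exact fun h => ⟨by omega, h⟩

theorem coh (R : Finset ℕ) (hcase : (1 ∉ R ∧ 2 ∉ R) ∨ (1 ∉ R ∧ 3 ∉ R ∧ 0 ∈ R ∧ 2 ∈ R) ∨
    (0 ∉ R ∧ 2 ∉ R ∧ 1 ∈ R ∧ 3 ∈ R)) :
    ∀ p ∈ range 2, ∀ q ∈ range 2, ∀ r ∈ range 2, ∀ x ∈ range 2, ∀ y ∈ range 2,
      ∀ z ∈ range 2, p + q + x ∈ R → p + r + y ∈ R → q + r + z ∈ R → x + y + z ∈ R := by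
  intro p hp q hq r hr x hx y hy z hz
  simp only [mem_range] at hp hq hr hx hy hz
  rcases hcase with ⟨k1, k2⟩ | ⟨k1, k2, k3, k4⟩ | ⟨k1, k2, k3, k4⟩ <;>
  interval_cases p <;> interval_cases q <;> interval_cases r <;> interval_cases x <;>
      interval_cases y <;> interval_cases z <;> simp_all

theorem good_all (G : SimpleGraph (Fin n)) (R : Finset ℕ) (hn : 16 ≤ n)
    (hf : FreeOn (encoded G R) univ) (U : Finset (Fin n)) (hU : U.Nonempty) :
    Good (encoded G R) U := by
  have hfU := hf.mono (subset_univ U)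
  have hc := compl_encoded G R
  have m0 := mem_compl_rule R 0 (by norm_num)
  have m1 := mem_compl_rule R 1 (by norm_num)
  have m2 := mem_compl_rule R 2 (by norm_num)
  have m3 := mem_compl_rule R 3 (by norm_num)
  norm_num at m0 m1 m2 m3
  set R' := (range 4).filter fun j => 3 - j ∈ R with hR'
  have hcf : FreeOn (encoded Gᶜ R') U := by rw [hc]; exact hfU
  have hcf' : FreeOn (encoded Gᶜ R') univ := by rw [hc]; exact hf
  have n0 : 3 ∈ R' ↔ 0 ∈ R := by rw [hR', mem_filter]; simp
  have n1 : 2 ∈ R' ↔ 1 ∈ R := by rw [hR', mem_filter]; simp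
  have n2 : 1 ∈ R' ↔ 2 ∈ R := by rw [hR', mem_filter]; simp
  have n3 : 0 ∈ R' ↔ 3 ∈ R := by rw [hR', mem_filter]; simp
  by_cases h0 : 0 ∈ R <;> by_cases h1 : 1 ∈ R <;> by_cases h2 : 2 ∈ R <;> by_cases h3 : 3 ∈ R
  · exact (vac_0123 G R h0 h1 h2 h3 (by omega) hf).elim
  · rw [← hc]
    exact good_123 _ _ (fun h => h3 (n3.mp h)) (n2.mpr h2) (n1.mpr h1) (n0.mpr h0) U hU hcf
  · exact (vac_013 G R h0 h1 h3 hn hf).elim
  · rw [← hc]
    exact good_23 _ _ (fun h => h3 (n3.mp h)) (fun h => h2 (n2.mp h)) (n1.mpr h1) (n0.mpr h0) U hU hcf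
  · exact (vac_013 Gᶜ R' (n3.mpr h3) (n2.mpr h2) (n0.mpr h0) hn hcf').elim
  · exact good_coherent G R (coh R (by tauto)) U hU hfU
  · exact good_coherent G R (coh R (by tauto)) U hU hfU
  · exact good_coherent G R (coh R (by tauto)) U hU hfU
  · exact good_123 G R h0 h1 h2 h3 U hU hfU
  · exact good_12 G R h0 h1 h2 h3 U hU hfU
  · exact good_coherent G R (coh R (by tauto)) U hU hfU
  · rw [← hc]
    exact good_2 _ _ (fun h => h3 (n3.mp h)) (fun h => h2 (n2.mp h)) (n1.mpr h1)
      (fun h => h0 (n0.mp h)) U hU hcf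
  · exact good_23 G R h0 h1 h2 h3 U hU hfU
  · exact good_2 G R h0 h1 h2 h3 U hU hfU
  · exact good_coherent G R (coh R (by tauto)) U hU hfU
  · exact good_coherent G R (coh R (by tauto)) U hU hfU

theorem upper (G : SimpleGraph (Fin n)) (R : Finset ℕ) (hn : 16 ≤ n)
    (h : KFree 4 (encoded G R)) : (encoded G R).card ≤ ∑ i ∈ range n, i ^ 2 / 4 := by
  have hf := free_of_KFree _ h
  have := sum_bound (encoded G R) encoded_card3 (fun U hU => good_all G R hn hf U hU) n univ
    (by rw [card_univ, Fintype.card_fin])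
  unfold T at this
  rwa [filter_true_of_mem (fun s _ => subset_univ s)] at this

end Pool.Agent.Helper800Enc
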